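import Pool.Agent.Helper8.PPB.GL0A

/-!
# Project PPB (MP_fc6b1e_nt), packet B_GL0
-/

set_option autoImplicit false

namespace Pool.Agent.Helper8.PPB

open NumberField Polynomial Module IsDedekindDomain TensorProduct Pool.Agent.Helper51.SigLeo
open Pool.Agent.Helper51.RP Pool.Agent.Helper11.PP Pool.Agent.Helper77.PPB
open Pool.Agent.Helper11.LE (Cyc)
open Pool.Agent.Helper42.RD (TSet)
open Pool.Agent.Helper77.RL (Sqr SplitAt)
open Pool.Agent.Helper77.PPO (SelO)
open Pool.Agent.Helper38.FD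
open Pool.Agent.Helper79.RD (eq_on_sup map_sup_mem map_mem_normal)
open Pool.Agent.Helper13.RL

/-- an automorphism of a compositum which is trivial on both fields -/
theorem eq_one_sup {K Ω : Type} [Field K] [Field Ω] [Algebra K Ω] {A B F : IntermediateField K Ω}
    (hF : F = A ⊔ B) (g : F ≃ₐ[K] F) (hA : ∀ y : F, (y : Ω) ∈ A → g y = y)
    (hB : ∀ y : F, (y : Ω) ∈ B → g y = y) : g = 1 := by
  subst hF
  have e1 : (g : (A ⊔ B : IntermediateField K Ω) →ₐ[K] (A ⊔ B : IntermediateField K Ω)) =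
      AlgHom.id K _ := by
    refine hom_ext_sup ?_ ?_
    · intro x hx
      exact hA _ hx
    · intro x hx
      exact hB _ hx
  ext x
  have h5 := AlgHom.congr_fun e1 x
  exact congrArg Subtype.val h5

theorem aut_self {K : Type} [Field K] (g : K ≃ₐ[K] K) : g = 1 := by
  ext x
  exact g.commutes x

theorem b_gl0 (h1 : B_TRV) (h2 : B_PRM) (h3 : B_SPA) (h4 : B_NIN) (h5 : B_STB) (h6 : B_TOR)
    (h7 : B_CO0) : B_GL0 := by
  intro p hpf K _ _ ιinf ιp Lg S hcl hnr M₁ J M₂ _ _ _ _ _ hM₂ hcop hJd hsplJ ψ₁ ψ hF₁ hψ₁p hψ₁J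
    ε α hε hεM₁ hgen hom hnice hnp hgs hsel E _ _ hE hEd hnt hsplE hramE hunrE
  have hp := hpf.out
  obtain ⟨l₁, hJd⟩ := hJd
  obtain ⟨l₂, hEd⟩ := hEd
  have hgΩ : IsGalois K (AlgebraicClosure K) := inferInstance
  have hfM₁ : FiniteDimensional K M₁ := Module.Finite.of_restrictScalars_finite ℚ K M₁
  have hfJ : FiniteDimensional K J := Module.Finite.of_restrictScalars_finite ℚ K J
  have hfE : FiniteDimensional K E := Module.Finite.of_restrictScalars_finite ℚ K E
  have hfM₂ : FiniteDimensional K M₂ := Module.Finite.of_restrictScalars_finite ℚ K M₂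
  -- the field `L`
  obtain ⟨L, hL⟩ : ∃ L : IntermediateField K (AlgebraicClosure K), L = J ⊔ E := ⟨_, rfl⟩
  have hgL : IsGalois K L := by rw [hL]; infer_instance
  have hfL : FiniteDimensional K L := by rw [hL]; infer_instance
  have hnL : NumberField L := NumberField.of_module_finite K L
  obtain ⟨n, hLd⟩ : ∃ n, finrank K L = p ^ n := by
    have h := finrank_sup_dvd (L := J) (N := E) finrank_pos finrank_pos inferInstance
      inferInstance
    rw [hJd, hEd, ← pow_add] at h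
    obtain ⟨n, -, hn⟩ := (Nat.dvd_prime_pow hp).1 h
    exact ⟨n, by rw [hL]; exact hn⟩
  have hJL : J ≤ L := by rw [hL]; exact le_sup_left
  have hEL : E ≤ L := by rw [hL]; exact le_sup_right
  have hntL : ∃ g : AlgebraicClosure K ≃ₐ[K] AlgebraicClosure K, (∀ x ∈ L, g x = x) ∧ ψ₁ g ≠ 1 := by
    rw [hL]; exact hnt
  -- the field `F`
  obtain ⟨F₁, hfF₁, hcF₁⟩ := hF₁
  have hgF₁ : IsGalois K F₁ := isGalois_of_cutsOut hcF₁
  obtain ⟨F, hF⟩ : ∃ F : IntermediateField K (AlgebraicClosure K), F = L ⊔ F₁ := ⟨_, rfl⟩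
  have hgF : IsGalois K F := by rw [hF]; infer_instance
  have hfF : FiniteDimensional K F := by rw [hF]; infer_instance
  have hLF : L ≤ F := by rw [hF]; exact le_sup_left
  have hF₁F : F₁ ≤ F := by rw [hF]; exact le_sup_right
  have hFd : finrank K F = p ^ (n + 1) := by
    rw [finrank_cut hp hF hcF₁ (fun g hg => hψ₁J g fun x hx => hg x (hJL hx)) hntL, hLd, pow_succ]
  -- the field `M₂'`
  obtain ⟨M₂', hM₂'⟩ : ∃ X : IntermediateField K (AlgebraicClosure K), X = M₁ ⊔ L := ⟨_, rfl⟩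
  have hM₁M₂ : M₁ ≤ M₂ := by rw [hM₂]; exact le_sup_left
  have hJM₂ : J ≤ M₂ := by rw [hM₂]; exact le_sup_right
  have hM₁M₂' : M₁ ≤ M₂' := by rw [hM₂']; exact le_sup_left
  have hLM₂' : L ≤ M₂' := by rw [hM₂']; exact le_sup_right
  have hM₂M₂' : M₂ ≤ M₂' := by rw [hM₂]; exact sup_le hM₁M₂' (hJL.trans hLM₂')
  have hM₂'E : M₂' = M₂ ⊔ E := by
    apply le_antisymm
    · rw [hM₂', hL]
      exact sup_le (hM₁M₂.trans le_sup_left) (sup_le (hJM₂.trans le_sup_left) le_sup_right)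
    · exact sup_le hM₂M₂' (hEL.trans hLM₂')
  have hgM₂ : IsGalois K M₂ := by rw [hM₂]; infer_instance
  have hgM₂' : IsGalois K M₂' := by rw [hM₂']; infer_instance
  have hfM₂' : FiniteDimensional K M₂' := by rw [hM₂']; infer_instance
  have hnM₂' : NumberField M₂' := NumberField.of_module_finite K M₂'
  -- algebras
  let _ : Algebra M₁ M₂ := (IntermediateField.inclusion hM₁M₂).toRingHom.toAlgebra
  let _ : Algebra M₁ M₂' := (IntermediateField.inclusion hM₁M₂').toRingHom.toAlgebra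
  let _ : Algebra L M₂' := (IntermediateField.inclusion hLM₂').toRingHom.toAlgebra
  let _ : Algebra M₂ M₂' := (IntermediateField.inclusion hM₂M₂').toRingHom.toAlgebra
  let _ : Algebra J L := (IntermediateField.inclusion hJL).toRingHom.toAlgebra
  let _ : Algebra E L := (IntermediateField.inclusion hEL).toRingHom.toAlgebra
  let _ : Algebra E M₂' := (IntermediateField.inclusion (hEL.trans hLM₂')).toRingHom.toAlgebra
  have t1 : IsScalarTower K M₁ M₂' := IsScalarTower.of_algebraMap_eq fun x => rfl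
  have t2 : IsScalarTower K L M₂' := IsScalarTower.of_algebraMap_eq fun x => rfl
  have t3 : IsScalarTower K M₂ M₂' := IsScalarTower.of_algebraMap_eq fun x => rfl
  have t4 : IsScalarTower M₁ M₂ M₂' := IsScalarTower.of_algebraMap_eq fun x => rfl
  have t5 : IsScalarTower K J L := IsScalarTower.of_algebraMap_eq fun x => rfl
  have t6 : IsScalarTower K E L := IsScalarTower.of_algebraMap_eq fun x => rfl
  have t7 : IsScalarTower K E M₂' := IsScalarTower.of_algebraMap_eq fun x => rfl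
  -- the squares
  have hq1 : Sqr p n K K L L :=
    { galM := inferInstance
      galL := hgL
      gal := hgL
      cop := by rw [finrank_self]; exact Nat.coprime_one_left p
      deg := hLd
      gen := fun g _ h => by
        ext x
        exact congrArg Subtype.val (h x) }
  have hq2 : Sqr p n K M₁ L M₂' :=
    sqr_sup' hM₂' (fun _ => rfl) (fun _ => rfl) inferInstance hgL hcop hLd
  -- the element
  have hε' : IsPrimitiveRoot (⟨(ε : AlgebraicClosure K), hεM₁⟩ : M₁) p :=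
    IsPrimitiveRoot.of_map_of_injective (f := algebraMap M₁ M₂) hε (RingHom.injective _)
  have hom' : OmType p K (algebraMap M₁ M₂ ⟨(ε : AlgebraicClosure K), hεM₁⟩) (α : M₂) := hom
  have hstab := h5 p n K K M₁ L L M₂ M₂' hq1 hq2 ⟨(ε : AlgebraicClosure K), hεM₁⟩ (α : M₂) hε' hom'
  -- the primes
  have hcond : CondW p K K M₂ M₂' (α : M₂) := by
    refine h2 p K K M₂ E M₂' ?_ (α : M₂) hramE fun v _ V hV x => hunrE v V hV x
    intro g g1 g2
    exact eq_one_sup hM₂'E g (fun y hy => g1 ⟨y, hy⟩) (fun y hy => g2 ⟨y, hy⟩)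
  have hspl : ∀ τ' : L →+* ℂ_[p], SplitAt K τ' := by
    refine h3 p K K J E L ?_ hsplJ hsplE
    intro g _ g1 g2
    exact eq_one_sup hL g (fun y hy => g1 ⟨y, hy⟩) (fun y hy => g2 ⟨y, hy⟩)
  -- the lifting theorem
  have hirr : Irreducible (X - 1 : (ZMod p)[X]) := by
    have h := irreducible_X_sub_C (1 : ZMod p)
    rwa [map_one] at h
  have htor : TorOK (X - 1 : (ZMod p)[X]) (1 : L ≃ₐ[L] L) :=
    h6 p K K L L n hLd 1 1 _ (fun _ => rfl) (torOK_one hnr)
  have hne : Nonempty (AlgebraicClosure ℚ →+* ℂ_[p]) :=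
    Pool.Agent.Helper50.RS.nonempty_hom ℚ ℂ_[p]
  have hα0 : (α : M₂) ≠ 0 := α.ne_zero
  have hlift := h1 p ℂ_[p] hne Lg n 1 K K L L M₂ M₂' hq1 1 1 (X - 1) hirr (one_pow 1)
    (fun _ => rfl) htor
    (fun w hw => absurd (fun g _ => aut_self g) hw) (TSet ιinf ιp S)
    (fun τ' _ => hspl τ') (α : M₂) hα0 hstab hcond hsel
  -- the Kummer generator
  obtain ⟨b, y, hb1, hb2⟩ := hnice
  have hy0 : (y : M₂) ≠ 0 := y.ne_zero
  have hb0 : (b : M₂) ≠ 0 := by
    rw [hb2]
    exact mul_ne_zero hα0 (pow_ne_zero _ hy0)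
  obtain ⟨s, hs⟩ := IsAlgClosed.exists_pow_nat_eq ((b : M₂) : AlgebraicClosure K) hp.pos
  have hyΩ : ((y : M₂) : AlgebraicClosure K) ≠ 0 := fun h => hy0 (Subtype.ext h)
  have hs' : (s / ((y : M₂) : AlgebraicClosure K)) ^ p = ((α : M₂) : AlgebraicClosure K) := by
    rw [div_pow, hs, hb2, div_eq_iff (pow_ne_zero _ hyΩ)]
    rfl
  have hsM₂ : s ∉ M₂ := by
    intro h
    apply hnp
    have e1 : (⟨s, h⟩ / (y : M₂)) ^ p = (α : M₂) := Subtype.ext hs'
    refine ⟨Units.mk0 (⟨s, h⟩ / (y : M₂)) ?_, ?_⟩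
    · intro h0
      rw [h0, zero_pow hp.ne_zero] at e1
      exact hα0 e1.symm
    · apply Units.ext
      rw [Units.val_pow_eq_pow_val, Units.val_mk0]
      exact e1.symm
  have hsg : ∀ g : AlgebraicClosure K ≃ₐ[K] AlgebraicClosure K, (∀ x ∈ M₂, g x = x) →
      ψ₁ g = 1 → g s = s := by
    intro g g1 g2
    have e1 := hgs _ hs' g g1 g2
    rw [map_div₀, g1 _ (y : M₂).2] at e1
    exact (div_left_inj' hyΩ).1 e1
  have hsM₂' : s ∉ M₂' := by
    rw [hM₂']
    exact h4 p K M₁ J L M₂ hM₂ hJL hcop ψ₁ ⟨F₁, hfF₁, hcF₁⟩ hψ₁p hψ₁J s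
      (by rw [hs]; exact (b : M₂).2) hsM₂ hsg hntL
  obtain ⟨b', hb'⟩ : ∃ b' : 𝓞 M₂', (b' : M₂') = algebraMap M₂ M₂' (b : M₂) ∧
      (p : 𝓞 M₂') ^ 3 ∣ b' - 1 := by
    refine ⟨RingOfIntegers.mapRingHom (algebraMap M₂ M₂') b, rfl, ?_⟩
    have e1 := map_dvd (RingOfIntegers.mapRingHom (algebraMap M₂ M₂')) hb1
    rwa [map_pow, map_natCast, map_sub, map_one] at e1
  have hb'0 : b' ≠ 0 := by
    intro h
    have e1 := hb'.1
    rw [h] at e1
    have e2 : algebraMap M₂ M₂' (b : M₂) = 0 := by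
      rw [← e1]
      exact map_zero (algebraMap (𝓞 M₂') M₂')
    exact hb0 ((algebraMap M₂ M₂').injective (by rw [e2, map_zero]))
  have hgLM₂' : IsGalois L M₂' := IsGalois.tower_top_of_isGalois K L M₂'
  have hcyc : Cyc p L M₂' (algebraMap M₂ M₂' ε) :=
    { prim := hε.map_of_injective (algebraMap M₂ M₂').injective
      gal := hgLM₂'
      gen := by
        intro g hg
        have hr := AlgEquiv.restrictNormal_commutes (g.restrictScalars K) M₁
        have e1 : (g.restrictScalars K).restrictNormal M₁ = 1 := by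
          apply hgen
          intro x hx
          apply (algebraMap M₁ M₂').injective
          rw [hr x]
          have e2 : algebraMap M₁ M₂' x = algebraMap M₂ M₂' ε := Subtype.ext hx
          rw [e2]
          exact hg
        have e3 : g.restrictScalars K = 1 := by
          refine eq_one_sup hM₂' _ (fun z hz => ?_) (fun z hz => ?_)
          · have e4 := hr ⟨z, hz⟩
            rw [e1] at e4
            exact e4.symm
          · exact g.commutes ⟨z, hz⟩
        ext x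
        exact congrArg Subtype.val (AlgEquiv.congr_fun e3 x) }
  have homL : OmType p L (algebraMap M₂ M₂' ε) (b' : M₂') := by
    intro τ
    have hr := AlgEquiv.restrictNormal_commutes (τ.restrictScalars K) M₂
    obtain ⟨h, hh⟩ : ∃ h : M₂ ≃ₐ[K] M₂, h = (τ.restrictScalars K).restrictNormal M₂ := ⟨_, rfl⟩
    rw [← hh] at hr
    have hr' : ∀ x : M₂, τ (algebraMap M₂ M₂' x) = algebraMap M₂ M₂' (h x) := fun x => (hr x).symm
    obtain ⟨m, c, e1, e2⟩ := hom h
    refine ⟨m, algebraMap M₂ M₂' (c * h y / y ^ m), ?_, ?_⟩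
    · rw [hr', e1, map_pow]
    · have key : h (b : M₂) = (b : M₂) ^ m * (c * h y / y ^ m) ^ p := by
        rw [hb2, map_mul, map_pow, e2, mul_pow, div_pow, mul_pow, ← pow_mul, ← pow_mul,
          mul_comm m p]
        have e3 : ((y : M₂)) ^ (p * m) ≠ 0 := pow_ne_zero _ hy0
        field_simp
      rw [hb'.1, hr', key, map_mul, map_pow, map_pow]
  have hselO : ∀ x : Lˣ, SelO Lg (above (TSet ιinf ιp S) : Set (L →+* ℂ_[p])) (b' : M₂') x →
      Pw p x := by
    intro x hx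
    refine hlift x ⟨Pool.Agent.Helper86.PPO.pw_pol_one _ (by simp) x, fun W => ?_, ?_⟩
    · refine locAt_class (c := algebraMap M₂ M₂' (y : M₂)) (b := (b' : M₂'))
        ((_root_.map_ne_zero _).2 hα0) ((_root_.map_ne_zero _).2 hy0) ?_ (hx.loc W)
      rw [hb'.1, hb2, map_mul, map_pow]
    · rw [above_id]
      exact hx.sig
  -- the characters
  have hcut : ∀ g : AlgebraicClosure K ≃ₐ[K] AlgebraicClosure K, (∀ x ∈ F, g x = x) →
      (ψ₁ * ψ) g = 1 := by
    intro g hg
    rw [MonoidHom.mul_apply, (hcF₁ g).2 fun x hx => hg x (hF₁F hx),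
      (hE g).2 fun x hx => hg x (hLF (hEL hx)), one_mul]
  obtain ⟨H, fH, hH⟩ := exists_cutsOut (ψ₁ * ψ) F hcut
  have jH := isGalois_of_cutsOut hH
  obtain ⟨χ', hinj, hχ'⟩ := exists_faithful hH
  obtain ⟨η, hη⟩ := exists_desc (χ := ψ₁ * ψ) (H := F) hcut
  have r : ∀ (g : AlgebraicClosure K ≃ₐ[K] AlgebraicClosure K)
      (X : IntermediateField K (AlgebraicClosure K)) [IsGalois K X],
      Restricts (algebraMap X (AlgebraicClosure K)) g (AlgEquiv.restrictNormalHom X g) :=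
    fun g X _ x => (AlgEquiv.restrictNormal_commutes g X x).symm
  refine ⟨H, fH, hH, χ', hχ', ?_⟩
  refine h7 p K ιinf ιp Lg S hcl n L F M₂' (fun _ => rfl) hLF hLd hFd (algebraMap M₂ M₂' ε) b' hcyc
    homL hb'0 hb'.2 s (by rw [hs, hb'.1]; rfl) hsM₂' (fun g g1 g2 => ?_) hselO H χ' η hinj ?_
    fun g => ?_
  · exact hsg g (fun x hx => g2 x (hM₂M₂' hx)) ((hcF₁ g).2 fun x hx => g1 x (hF₁F hx))
  · obtain ⟨g, g1, g2⟩ := hntL
    refine ⟨AlgEquiv.restrictNormalHom F g, fun x hx => ?_, ?_⟩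
    · apply Subtype.ext
      have e1 := r g F x
      exact e1.symm.trans (g1 _ hx)
    · rw [← hη g _ (r g F), MonoidHom.mul_apply, (hE g).2 fun x hx => g1 x (hEL hx), mul_one]
      exact g2
  · rw [← hχ' g _ (r g H), hη g _ (r g F)]

end Pool.Agent.Helper8.PPB
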