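import Pool.Agent.Helper77.PPB.Goals
import Pool.Agent.Helper13.RL.GOO
import Pool.Agent.Helper30.RL.SQR
import Pool.Agent.Helper38.FD.Split
import Pool.Agent.Helper86.PPO.OTRV

/-!
# Project PPB (MP_fc6b1e_nt), packet B_GL0: preparations
-/

set_option autoImplicit false

namespace Pool.Agent.Helper8.PPB

open NumberField Polynomial Module IsDedekindDomain Pool.Agent.Helper51.SigLeo
open Pool.Agent.Helper51.RP Pool.Agent.Helper11.PP
open Pool.Agent.Helper77.RL (Sqr SplitAt)
open Pool.Agent.Helper38.FD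

/-- The local condition depends only on the class of `α`. -/
theorem locAt_class {p : ℕ} {F : Type} [Field F] [NumberField F] {W : HeightOneSpectrum (𝓞 F)}
    {α c b x : F} (hα : α ≠ 0) (hc : c ≠ 0) (hb : b = α * c ^ p) (h : LocAt p W b x) :
    LocAt p W α x := by
  have e1 : ordv W b = ordv W α + p * ordv W c := by
    rw [hb, Pool.Agent.Helper49.RL.ordv_mul W hα (pow_ne_zero _ hc),
      Pool.Agent.Helper49.RL.ordv_pow]
  have e2 : (p : ℤ) ∣ ordv W b ↔ (p : ℤ) ∣ ordv W α := by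
    rw [e1]
    exact dvd_add_left (dvd_mul_right _ _)
  refine ⟨fun hd => h.1 (e2.2 hd), fun hd => ?_⟩
  obtain ⟨i, y, hy⟩ := h.2 (fun h' => hd (e2.1 h'))
  refine ⟨i, c ^ i * y, ?_⟩
  have e3 : x * ((-1) ^ (p - 1) * α) ^ i * (c ^ i * y) ^ p =
      x * ((-1) ^ (p - 1) * b) ^ i * y ^ p := by
    rw [hb]
    generalize ((-1 : F)) ^ (p - 1) = u
    rw [mul_pow, mul_pow, mul_pow, mul_pow, ← pow_mul, ← pow_mul, mul_comm p i]
    ring
  rw [e3]
  exact hy

/-- `above` for the trivial extension -/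
theorem above_id {k K L : Type} [Field K] [Field L] [NormedField k] [Algebra K L]
    (T : Set (K →+* k)) :
    (above (above T : Set (L →+* k)) : Set (L →+* k)) = above T := by
  ext τ
  exact Iff.rfl

/-- Roots of unity in a field without the `p`-th roots of unity. -/
theorem eq_one_of_pow {p : ℕ} (hp : p.Prime) {K : Type} [Field K]
    (h : ¬ ∃ ξ : K, IsPrimitiveRoot ξ p) (ξ : K) (n : ℕ) (hξ : ξ ^ p ^ n = 1) : ξ = 1 := by
  obtain ⟨m, -, hm⟩ := (Nat.dvd_prime_pow hp).1 (orderOf_dvd_of_pow_eq_one hξ)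
  rcases Nat.eq_zero_or_pos m with h0 | h0
  · rw [h0, pow_zero] at hm
    exact orderOf_eq_one_iff.1 hm
  · exfalso
    apply h
    refine ⟨ξ ^ p ^ (m - 1), ?_⟩
    have h1 := IsPrimitiveRoot.orderOf ξ
    refine h1.pow (by rw [hm]; exact pow_pos hp.pos _) ?_
    rw [hm, ← pow_succ, Nat.sub_add_cancel h0]

/-- `X - 1` does not vanish at `0`. -/
theorem torOK_one {p : ℕ} [hp : Fact p.Prime] {K : Type} [Field K]
    (h : ¬ ∃ ξ : K, IsPrimitiveRoot ξ p) : TorOK (X - 1 : (ZMod p)[X]) (1 : K ≃ₐ[K] K) := by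
  refine ⟨0, ?_, fun ξ n hξ => ?_⟩
  · simp
  · rw [pow_zero]
    exact eq_one_of_pow hp.out h ξ n hξ

/-- the degree of the field of a character over a field over which it has order `p` -/
theorem finrank_cut {K Ω k : Type} [Field K] [Field Ω] [Algebra K Ω] [NormedField k]
    [IsGalois K Ω] {p : ℕ} (hp : p.Prime) {ψ : Chr K Ω k} {L F₁ F : IntermediateField K Ω}
    (hF : F = L ⊔ F₁) [FiniteDimensional K F] [IsGalois K F] (h1 : CutsOut ψ F₁)
    (h2 : ∀ g : Ω ≃ₐ[K] Ω, (∀ x ∈ L, g x = x) → ψ g ^ p = 1)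
    (h3 : ∃ g : Ω ≃ₐ[K] Ω, (∀ x ∈ L, g x = x) ∧ ψ g ≠ 1) :
    finrank K F = finrank K L * p := by
  have hLF : L ≤ F := by rw [hF]; exact le_sup_left
  have hF₁F : F₁ ≤ F := by rw [hF]; exact le_sup_right
  let _ : Algebra L F := (IntermediateField.inclusion hLF).toRingHom.toAlgebra
  have ht : IsScalarTower K L F := IsScalarTower.of_algebraMap_eq fun x => rfl
  have hgal : IsGalois L F := IsGalois.tower_top_of_isGalois K L F
  have hfd : FiniteDimensional L F := FiniteDimensional.right K L F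
  obtain ⟨χ', hχ'⟩ := exists_desc (χ := ψ) (H := F) fun g hg =>
    (h1 g).2 fun x hx => hg x (hF₁F hx)
  have hinj : Function.Injective (χ'.comp (AlgEquiv.restrictScalarsHom (S := L) K)) := by
    rw [injective_iff_map_eq_one]
    intro σ hσ
    obtain ⟨g, hg⟩ := exists_lift (Ω := Ω) (AlgEquiv.restrictScalarsHom (S := L) K σ)
    have e1 : ψ g = 1 := by rw [hχ' g _ hg]; exact hσ
    have e2 : ∀ x ∈ F₁, g x = x := (h1 g).1 e1
    have e3 : ∀ x ∈ L, g x = x := by
      intro x hx
      have e4 := hg (algebraMap L F ⟨x, hx⟩)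
      have e5 : AlgEquiv.restrictScalarsHom (S := L) K σ (algebraMap L F ⟨x, hx⟩) =
          algebraMap L F ⟨x, hx⟩ := σ.commutes _
      rw [e5] at e4
      exact e4
    have e6 : ∀ x ∈ F, g x = x := by
      rw [hF]
      exact fix_sup g e3 e2
    ext x
    have e7 := hg x
    exact e7.symm.trans (e6 x x.2)
  have hcyc : IsCyclic (F ≃ₐ[L] F) :=
    isCyclic_of_injective_ringHom (R := k) ((Units.coeHom k).comp
      (χ'.comp (AlgEquiv.restrictScalarsHom (S := L) K))) (Units.val_injective.comp hinj)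
  have hpow : ∀ σ : F ≃ₐ[L] F, σ ^ p = 1 := by
    intro σ
    apply hinj
    rw [map_pow, map_one]
    obtain ⟨g, hg⟩ := exists_lift (Ω := Ω) (AlgEquiv.restrictScalarsHom (S := L) K σ)
    have e3 : ∀ x ∈ L, g x = x := by
      intro x hx
      have e4 := hg (algebraMap L F ⟨x, hx⟩)
      have e5 : AlgEquiv.restrictScalarsHom (S := L) K σ (algebraMap L F ⟨x, hx⟩) =
          algebraMap L F ⟨x, hx⟩ := σ.commutes _
      rw [e5] at e4
      exact e4
    have e6 := h2 g e3
    rw [hχ' g _ hg] at e6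
    exact e6
  have hcard : finrank L F = p := by
    rw [← IsGalois.card_aut_eq_finrank, ← IsCyclic.exponent_eq_card]
    have h5 : Monoid.exponent (F ≃ₐ[L] F) ∣ p := Monoid.exponent_dvd_of_forall_pow_eq_one hpow
    rcases (Nat.dvd_prime hp).1 h5 with h6 | h6
    · exfalso
      obtain ⟨g, hg1, hg2⟩ := h3
      apply hg2
      have nF : Normal K F := inferInstance
      have hst : ∀ g : Ω ≃ₐ[K] Ω, ∀ x ∈ F, g x ∈ F :=
        fun g x hx => Pool.Agent.Helper79.RD.map_mem_normal g hx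
      have e1 := Monoid.pow_exponent_eq_one
        (Pool.Agent.Helper13.RL.resL (fun x : L => (rfl : ((algebraMap L F x : F) : Ω) = x)) g
          (hst g) (hst g.symm) hg1)
      rw [h6, pow_one] at e1
      refine (h1 g).2 fun x hx => ?_
      have e2 := AlgEquiv.congr_fun e1 ⟨x, hF₁F hx⟩
      exact congrArg Subtype.val e2
    · exact h6
  rw [← Module.finrank_mul_finrank K L F, hcard]

end Pool.Agent.Helper8.PPB
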